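import Mathlib

set_option autoImplicit false

/-!
# Minimal ideals of right alternative rings

Over every field `F` we construct a right alternative algebra `R` (which also satisfies the right
Moufang identity) with a minimal ideal `I` that is neither simple as a ring nor solvable.

Construction. Let `C` and `N` be vector spaces with bases `e_j` (`j ∈ ℕ`) and `e_A` (`A ⊂ ℕ`
finite); `C` acts on `N = Λ(C)` by exterior multiplication, written `x c`, so `(x c) c = 0`. Take any
bilinear map `B : N × N → C` with `B (x c, y) = B (x, y c)`. On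
`R = C[l] ⊕ N[l] w₁ ⊕ N[l] w₂ ⊕ F d`, where `l² = 0`, define
`(x w_s)(a + l b) = (x b) w_s`, `(x w₁)(y w₂) = B(x, y) = - (y w₂)(x w₁)` (extended `F[l]`-linearly),
`d (x w_s) = l x w_s`, `c d = l c = - d c` for `c ∈ C[l]`, and all other products are zero. This is
right alternative for every such `B`. For a suitable `B` the span `I` of `C[l]` and of all
`e_A l^i w_s` with `A ≠ ∅` is a minimal ideal of `R` and it is not solvable, while `C ⊂ C[l]` is a
proper nonzero ideal of the ring `I` (it annihilates `I`, but `C d = l C`).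
-/

universe u

namespace Pool.Agent.Results.MP_c4a975_al.EveryCharacteristic

section Defs

/-- A (not necessarily associative, commutative or unital) ring is right alternative if
`(x y) y = x (y y)` for all `x, y`. -/
def RightAlternative (R : Type u) [NonUnitalNonAssocRing R] : Prop :=
  ∀ x y : R, (x * y) * y = x * (y * y)

/-- The right Moufang identity `((x y) z) y = x ((y z) y)`. It holds automatically in right
alternative rings without `2`-torsion; in general it is an extra requirement. -/
def RightMoufang (R : Type u) [NonUnitalNonAssocRing R] : Prop :=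
  ∀ x y z : R, ((x * y) * z) * y = x * ((y * z) * y)

variable {R : Type u} [NonUnitalNonAssocRing R]

/-- `I` is a two-sided ideal of `R`. -/
def IsIdeal (I : AddSubgroup R) : Prop :=
  ∀ x ∈ I, ∀ r : R, r * x ∈ I ∧ x * r ∈ I

/-- `I` is a minimal ideal of `R`: a nonzero two-sided ideal such that the only ideals of `R`
contained in `I` are `0` and `I`. -/
def IsMinimalIdeal (I : AddSubgroup R) : Prop :=
  I ≠ ⊥ ∧ IsIdeal I ∧ ∀ J : AddSubgroup R, IsIdeal J → J ≤ I → J = ⊥ ∨ J = I

/-- `A B`: the additive subgroup spanned by all products `a b` with `a ∈ A`, `b ∈ B`. -/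
def prod (A B : AddSubgroup R) : AddSubgroup R :=
  AddSubgroup.closure {z : R | ∃ a ∈ A, ∃ b ∈ B, z = a * b}

/-- `J` is a two-sided ideal of the ring `I` (an additive subgroup of `R` inside `I`, closed under
multiplication by elements of `I` on both sides). -/
def IsIdealOf (J I : AddSubgroup R) : Prop :=
  J ≤ I ∧ ∀ x ∈ J, ∀ y ∈ I, y * x ∈ J ∧ x * y ∈ J

/-- `I` is simple as a ring: `I² ≠ 0` and the only two-sided ideals of the ring `I` are `0`, `I`. -/
def IsSimpleAsRing (I : AddSubgroup R) : Prop :=
  prod I I ≠ ⊥ ∧ ∀ J : AddSubgroup R, IsIdealOf J I → J = ⊥ ∨ J = I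

/-- The derived series `I^{(0)} = I`, `I^{(k+1)} = I^{(k)} I^{(k)}`. -/
def derived (I : AddSubgroup R) : ℕ → AddSubgroup R
  | 0 => I
  | k + 1 => prod (derived I k) (derived I k)

/-- The right powers `I^{<1>} = I`, `I^{<n+1>} = I^{<n>} I` (here indexed from `0`, so
`rightPower I n` is `I^{<n+1>}`). -/
def rightPower (I : AddSubgroup R) : ℕ → AddSubgroup R
  | 0 => I
  | n + 1 => prod (rightPower I n) I

/-- `I` is solvable. -/
def IsSolvableIdeal (I : AddSubgroup R) : Prop :=
  ∃ k, derived I k = ⊥

/-- `I` is right nilpotent. -/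
def IsRightNilpotent (I : AddSubgroup R) : Prop :=
  ∃ n, rightPower I n = ⊥

theorem mul_mem_prod {A B : AddSubgroup R} {a b : R} (ha : a ∈ A) (hb : b ∈ B) :
    a * b ∈ prod A B := AddSubgroup.subset_closure ⟨a, ha, b, hb, rfl⟩

theorem derived_le_self {I : AddSubgroup R} (hI : IsIdeal I) (k : ℕ) : derived I k ≤ I := by
  induction k with
  | zero => exact le_refl _
  | succ k ih =>
    refine (AddSubgroup.closure_le _).2 ?_
    rintro _ ⟨a, ha, b, hb, rfl⟩
    exact (hI a (ih ha) b).2

theorem derived_le_rightPower {I : AddSubgroup R} (hI : IsIdeal I) (k : ℕ) :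
    derived I k ≤ rightPower I k := by
  induction k with
  | zero => exact le_refl _
  | succ k ih =>
    refine (AddSubgroup.closure_le _).2 ?_
    rintro _ ⟨a, ha, b, hb, rfl⟩
    exact mul_mem_prod (ih ha) (derived_le_self hI k hb)

end Defs

/-- The input of the construction: two modules `C`, `N` over `k`, a right action
`th : N × C → N` with `(x c) c = 0` and a bilinear map `B : N × N → C` with
`B (x c, y) = B (x, y c)`. -/
structure Datum (k C N : Type u) [CommRing k] [AddCommGroup C] [Module k C] [AddCommGroup N]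
    [Module k N] where
  th : N →ₗ[k] C →ₗ[k] N
  B : N →ₗ[k] N →ₗ[k] C
  th_sq : ∀ x c, th (th x c) c = 0
  B_th : ∀ x y c, B (th x c) y = B x (th y c)

section

variable {k C N : Type u} [CommRing k] [AddCommGroup C] [Module k C] [AddCommGroup N]
    [Module k N]

theorem Datum.th_anti (D : Datum k C N) (x : N) (b c : C) :
    D.th (D.th x b) c = - D.th (D.th x c) b := by
  have h := D.th_sq x (b + c)
  simp only [map_add, LinearMap.add_apply, D.th_sq, zero_add, add_zero] at h
  exact eq_neg_of_add_eq_zero_right h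

/-- The underlying module of the ring: elements are `(a, b, p, p', q, q', t)`, standing for
`a + l b + (p + l p') w₁ + (q + l q') w₂ + t d` with `l² = 0`. -/
@[ext] structure Alg (D : Datum k C N) : Type u where
  a : C
  b : C
  p : N
  p' : N
  q : N
  q' : N
  t : k

variable {D : Datum k C N}

namespace Alg

instance : Zero (Alg D) := ⟨⟨0, 0, 0, 0, 0, 0, 0⟩⟩
instance : Add (Alg D) := ⟨fun x y => ⟨x.a + y.a, x.b + y.b, x.p + y.p, x.p' + y.p', x.q + y.q,
  x.q' + y.q', x.t + y.t⟩⟩
instance : Neg (Alg D) := ⟨fun x => ⟨-x.a, -x.b, -x.p, -x.p', -x.q, -x.q', -x.t⟩⟩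
instance : SMul k (Alg D) := ⟨fun s x => ⟨s • x.a, s • x.b, s • x.p, s • x.p', s • x.q, s • x.q',
  s • x.t⟩⟩
instance : Mul (Alg D) := ⟨fun x y =>
  ⟨D.B x.p y.q - D.B y.p x.q,
   D.B x.p y.q' + D.B x.p' y.q - D.B y.p x.q' - D.B y.p' x.q + y.t • x.a - x.t • y.a,
   D.th x.p y.b, D.th x.p' y.b + x.t • y.p,
   D.th x.q y.b, D.th x.q' y.b + x.t • y.q, 0⟩⟩

@[simp] theorem zero_a : (0 : Alg D).a = 0 := rfl
@[simp] theorem zero_b : (0 : Alg D).b = 0 := rfl
@[simp] theorem zero_p : (0 : Alg D).p = 0 := rfl
@[simp] theorem zero_p' : (0 : Alg D).p' = 0 := rfl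
@[simp] theorem zero_q : (0 : Alg D).q = 0 := rfl
@[simp] theorem zero_q' : (0 : Alg D).q' = 0 := rfl
@[simp] theorem zero_t : (0 : Alg D).t = 0 := rfl
@[simp] theorem add_a (x y : Alg D) : (x + y).a = x.a + y.a := rfl
@[simp] theorem add_b (x y : Alg D) : (x + y).b = x.b + y.b := rfl
@[simp] theorem add_p (x y : Alg D) : (x + y).p = x.p + y.p := rfl
@[simp] theorem add_p' (x y : Alg D) : (x + y).p' = x.p' + y.p' := rfl
@[simp] theorem add_q (x y : Alg D) : (x + y).q = x.q + y.q := rfl
@[simp] theorem add_q' (x y : Alg D) : (x + y).q' = x.q' + y.q' := rfl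
@[simp] theorem add_t (x y : Alg D) : (x + y).t = x.t + y.t := rfl
@[simp] theorem neg_a (x : Alg D) : (-x).a = -x.a := rfl
@[simp] theorem neg_b (x : Alg D) : (-x).b = -x.b := rfl
@[simp] theorem neg_p (x : Alg D) : (-x).p = -x.p := rfl
@[simp] theorem neg_p' (x : Alg D) : (-x).p' = -x.p' := rfl
@[simp] theorem neg_q (x : Alg D) : (-x).q = -x.q := rfl
@[simp] theorem neg_q' (x : Alg D) : (-x).q' = -x.q' := rfl
@[simp] theorem neg_t (x : Alg D) : (-x).t = -x.t := rfl
@[simp] theorem smul_a (s : k) (x : Alg D) : (s • x).a = s • x.a := rfl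
@[simp] theorem smul_b (s : k) (x : Alg D) : (s • x).b = s • x.b := rfl
@[simp] theorem smul_p (s : k) (x : Alg D) : (s • x).p = s • x.p := rfl
@[simp] theorem smul_p' (s : k) (x : Alg D) : (s • x).p' = s • x.p' := rfl
@[simp] theorem smul_q (s : k) (x : Alg D) : (s • x).q = s • x.q := rfl
@[simp] theorem smul_q' (s : k) (x : Alg D) : (s • x).q' = s • x.q' := rfl
@[simp] theorem smul_t (s : k) (x : Alg D) : (s • x).t = s • x.t := rfl
@[simp] theorem mul_a (x y : Alg D) : (x * y).a = D.B x.p y.q - D.B y.p x.q := rfl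
@[simp] theorem mul_b (x y : Alg D) : (x * y).b =
  D.B x.p y.q' + D.B x.p' y.q - D.B y.p x.q' - D.B y.p' x.q + y.t • x.a - x.t • y.a := rfl
@[simp] theorem mul_p (x y : Alg D) : (x * y).p = D.th x.p y.b := rfl
@[simp] theorem mul_p' (x y : Alg D) : (x * y).p' = D.th x.p' y.b + x.t • y.p := rfl
@[simp] theorem mul_q (x y : Alg D) : (x * y).q = D.th x.q y.b := rfl
@[simp] theorem mul_q' (x y : Alg D) : (x * y).q' = D.th x.q' y.b + x.t • y.q := rfl
@[simp] theorem mul_t (x y : Alg D) : (x * y).t = 0 := rfl

instance : NonUnitalNonAssocRing (Alg D) where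
  nsmul := nsmulRec
  zsmul := zsmulRec
  add_assoc := by intro x y z; ext <;> simp [add_assoc]
  zero_add := by intro x; ext <;> simp
  add_zero := by intro x; ext <;> simp
  add_comm := by intro x y; ext <;> simp [add_comm]
  neg_add_cancel := by intro x; ext <;> simp
  left_distrib := by intro x y z; ext <;> simp [add_smul, smul_add] <;> abel
  right_distrib := by intro x y z; ext <;> simp [add_smul, smul_add] <;> abel
  zero_mul := by intro x; ext <;> simp
  mul_zero := by intro x; ext <;> simp

instance : Module k (Alg D) where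
  one_smul := by intro x; ext <;> simp
  mul_smul := by intro r s x; ext <;> simp [mul_smul, mul_assoc]
  smul_zero := by intro r; ext <;> simp
  smul_add := by intro r x y; ext <;> simp [mul_add]
  add_smul := by intro r s x; ext <;> simp [add_smul, add_mul]
  zero_smul := by intro x; ext <;> simp

instance : IsScalarTower k (Alg D) (Alg D) := ⟨by
  intro s x y
  ext
  · simp [smul_sub]
  · simp only [smul_eq_mul, mul_b, smul_p, smul_p', smul_q, smul_q', smul_a, smul_t, map_smul,
      LinearMap.smul_apply, smul_b]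
    module
  all_goals simp [mul_smul, smul_add]⟩

instance : SMulCommClass k (Alg D) (Alg D) := ⟨by
  intro s x y
  ext
  · simp [smul_sub]
  · simp only [smul_eq_mul, mul_b, smul_p, smul_p', smul_q, smul_q', smul_a, smul_t, map_smul,
      LinearMap.smul_apply, smul_b]
    module
  all_goals simp [smul_add, smul_comm s x.t]⟩

/-- The ring is right alternative. -/
theorem rightAlternative (x y : Alg D) : (x * y) * y = x * (y * y) := by
  ext
  · simp [D.B_th]
  · simp [D.B_th]
    module
  · simp [D.th_sq]
  · simp [D.th_sq]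
  · simp [D.th_sq]
  · simp [D.th_sq]
  · simp

/-- The ring satisfies the right Moufang identity. -/
theorem rightMoufang (x y z : Alg D) : ((x * y) * z) * y = x * ((y * z) * y) := by
  have h1 : ∀ (n : N) (b c : C), D.th (D.th (D.th n b) c) b = 0 := by
    intro n b c
    rw [D.th_anti n b c, map_neg, LinearMap.neg_apply, D.th_sq, neg_zero]
  ext
  · simp [D.B_th]
  · simp [D.B_th]
    module
  · simp [D.B_th, h1]
    module
  · simp [D.B_th, h1]
    module
  · simp [D.B_th, h1]
    module
  · simp [D.B_th, h1]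
    module
  · simp

end Alg

end

noncomputable section Concrete

/-- Number of elements of `A` below `i`. -/
def cnt (i : ℕ) (A : Finset ℕ) : ℕ := (A.filter (· < i)).card

/-- The sign of `e_A ∧ e_i`. -/
def sg (k : Type u) [CommRing k] (i : ℕ) (A : Finset ℕ) : k := (-1) ^ cnt i A

/-- The sign used in the bilinear map. -/
def sg2 (k : Type u) [CommRing k] (A U : Finset ℕ) : k := (-1) ^ (∑ x ∈ A, cnt x U)

/-- The action of the basis vector `i` on the basis vector `A`. -/
def thB (k : Type u) [CommRing k] (A : Finset ℕ) (i : ℕ) : Finset ℕ →₀ k :=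
  if i ∈ A then 0 else Finsupp.single (insert i A) (sg k i A)

/-- A code of a finite set of natural numbers. -/
def code (A : Finset ℕ) : ℕ := ∑ i ∈ A, 2 ^ i

/-- The map `Ω` on basis vectors: `Ω (A ∪ {m}) = j` if `m = (code A, j)` (and `m` is larger than
all elements of `A`), and `Ω = 0` otherwise. -/
def Om (k : Type u) [CommRing k] (U : Finset ℕ) : ℕ →₀ k :=
  if code (U.erase (U.sup id)) = (Nat.unpair (U.sup id)).1 then
    Finsupp.single (Nat.unpair (U.sup id)).2 1 else 0

/-- The bilinear map on basis vectors. -/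
def BB (k : Type u) [CommRing k] (A D : Finset ℕ) : ℕ →₀ k :=
  if Disjoint A D then sg2 k A (A ∪ D) • Om k (A ∪ D) else 0

variable (k : Type u) [CommRing k]

def thM : (Finset ℕ →₀ k) →ₗ[k] (ℕ →₀ k) →ₗ[k] (Finset ℕ →₀ k) :=
  Finsupp.linearCombination k (fun A => Finsupp.linearCombination k (thB k A))

def BM : (Finset ℕ →₀ k) →ₗ[k] (Finset ℕ →₀ k) →ₗ[k] (ℕ →₀ k) :=
  Finsupp.linearCombination k (fun A => Finsupp.linearCombination k (BB k A))

theorem thM_single (A : Finset ℕ) (i : ℕ) (r s : k) :
    thM k (Finsupp.single A r) (Finsupp.single i s) = (r * s) • thB k A i := by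
  simp [thM, Finsupp.linearCombination_single, mul_smul]

theorem BM_single (A D : Finset ℕ) (r s : k) :
    BM k (Finsupp.single A r) (Finsupp.single D s) = (r * s) • BB k A D := by
  simp [BM, Finsupp.linearCombination_single, mul_smul]

theorem cnt_insert {i j : ℕ} {A : Finset ℕ} (h : i ∉ A) :
    cnt j (insert i A) = cnt j A + (if i < j then 1 else 0) := by
  unfold cnt
  rw [Finset.filter_insert]
  split_ifs with h1
  · rw [Finset.card_insert_of_notMem]
    simp [h]
  · simp

theorem cnt_union {i : ℕ} {A D : Finset ℕ} (h : Disjoint A D) :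
    cnt i (A ∪ D) = cnt i A + cnt i D := by
  unfold cnt
  rw [Finset.filter_union, Finset.card_union_of_disjoint]
  exact Finset.disjoint_filter_filter h

theorem th_anti_basis (A : Finset ℕ) (i j : ℕ) :
    thM k (thB k A i) (Finsupp.single j 1) + thM k (thB k A j) (Finsupp.single i 1) = 0 := by
  unfold thB
  by_cases hi : i ∈ A
  · by_cases hj : j ∈ A
    · simp [hi, hj]
    · simp only [hi, hj, if_true, if_false, map_zero, LinearMap.zero_apply, zero_add]
      rw [thM_single]
      simp [thB, hi]
  · by_cases hj : j ∈ A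
    · simp only [hi, hj, if_true, if_false, map_zero, LinearMap.zero_apply, add_zero]
      rw [thM_single]
      simp [thB, hj]
    · simp only [hi, hj, if_false]
      rw [thM_single, thM_single]
      unfold thB
      rcases eq_or_ne i j with rfl | hne
      · simp
      · rw [if_neg (by simp [hj, hne.symm]), if_neg (by simp [hi, hne])]
        rw [Finset.insert_comm i j, Finsupp.smul_single, Finsupp.smul_single,
          ← Finsupp.single_add]
        rw [show (sg k i A * 1) • sg k j (insert i A) + (sg k j A * 1) • sg k i (insert j A)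
          = (0 : k) from ?_, Finsupp.single_zero]
        unfold sg
        rw [cnt_insert hi, cnt_insert hj]
        rcases lt_or_gt_of_ne hne with h | h
        · rw [if_pos h, if_neg (by omega)]
          simp only [mul_one, add_zero, smul_eq_mul, pow_add, pow_one]
          ring
        · rw [if_neg (by omega), if_pos h]
          simp only [mul_one, add_zero, smul_eq_mul, pow_add, pow_one]
          ring

theorem th_anti' (x : Finset ℕ →₀ k) (b c : ℕ →₀ k) :
    thM k (thM k x b) c + thM k (thM k x c) b = 0 := by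
  induction x using Finsupp.induction_linear with
  | zero => simp
  | add x y hx hy =>
    simp only [map_add, LinearMap.add_apply]
    have : ∀ a b c d : Finset ℕ →₀ k, a + c = 0 → b + d = 0 → a + b + (c + d) = 0 := by
      intro a b c d h1 h2
      rw [show a + b + (c + d) = (a + c) + (b + d) by abel, h1, h2, add_zero]
    exact this _ _ _ _ hx hy
  | single A r =>
    induction b using Finsupp.induction_linear with
    | zero => simp
    | add x y hx hy =>
      simp only [map_add, LinearMap.add_apply]
      have : ∀ a b c d : Finset ℕ →₀ k, a + c = 0 → b + d = 0 → a + b + (c + d) = 0 := by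
        intro a b c d h1 h2
        rw [show a + b + (c + d) = (a + c) + (b + d) by abel, h1, h2, add_zero]
      exact this _ _ _ _ hx hy
    | single i s =>
      induction c using Finsupp.induction_linear with
      | zero => simp
      | add x y hx hy =>
        simp only [map_add, LinearMap.add_apply]
        have : ∀ a b c d : Finset ℕ →₀ k, a + c = 0 → b + d = 0 → a + b + (c + d) = 0 := by
          intro a b c d h1 h2
          rw [show a + b + (c + d) = (a + c) + (b + d) by abel, h1, h2, add_zero]
        exact this _ _ _ _ hx hy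
      | single j t =>
        have h1 : ∀ (j : ℕ) (t : k), (Finsupp.single j t : ℕ →₀ k) = t • Finsupp.single j 1 := by
          intro j t; simp
        rw [thM_single, thM_single, h1 j t, h1 i s]
        simp only [map_smul, LinearMap.smul_apply]
        have h2 := th_anti_basis k A i j
        rw [← eq_neg_iff_add_eq_zero] at h2
        rw [h2]
        module

theorem thB_sq (A : Finset ℕ) (i : ℕ) : thM k (thB k A i) (Finsupp.single i 1) = 0 := by
  unfold thB
  split_ifs with h
  · simp
  · rw [thM_single]
    simp [thB]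

theorem th_sq' (x : Finset ℕ →₀ k) (c : ℕ →₀ k) : thM k (thM k x c) c = 0 := by
  induction c using Finsupp.induction_linear with
  | zero => simp
  | add b c hb hc =>
    simp only [map_add, LinearMap.add_apply, hb, hc, zero_add, add_zero]
    exact th_anti' k x c b
  | single i s =>
    induction x using Finsupp.induction_linear with
    | zero => simp
    | add x y hx hy => simp only [map_add, LinearMap.add_apply, hx, hy, zero_add]
    | single A r =>
      have h1 : ∀ (j : ℕ) (t : k), (Finsupp.single j t : ℕ →₀ k) = t • Finsupp.single j 1 := by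
        intro j t; simp
      rw [thM_single, h1 i s]
      simp only [map_smul, LinearMap.smul_apply]
      rw [thB_sq]
      simp

theorem sg2_insert {i : ℕ} {A U : Finset ℕ} (h : i ∉ A) :
    sg2 k (insert i A) U = (-1) ^ cnt i U * sg2 k A U := by
  unfold sg2
  rw [Finset.sum_insert h, pow_add]

theorem BB_th (A D : Finset ℕ) (i : ℕ) :
    BM k (thB k A i) (Finsupp.single D 1) = BM k (Finsupp.single A 1) (thB k D i) := by
  unfold thB
  by_cases hi : i ∈ A
  · by_cases hj : i ∈ D
    · simp [hi, hj]
    · simp only [hi, hj, if_true, if_false, map_zero, LinearMap.zero_apply]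
      rw [BM_single, BB, if_neg, smul_zero]
      rw [Finset.disjoint_left]
      push Not
      exact ⟨i, hi, by simp⟩
  · by_cases hj : i ∈ D
    · simp only [hi, hj, if_true, if_false, map_zero]
      rw [BM_single, BB, if_neg, smul_zero]
      rw [Finset.disjoint_left]
      push Not
      exact ⟨i, by simp, hj⟩
    · simp only [hi, hj, if_false]
      rw [BM_single, BM_single]
      unfold BB
      by_cases hd : Disjoint A D
      · rw [if_pos (by rw [Finset.disjoint_insert_left]; exact ⟨hj, hd⟩),
          if_pos (by rw [Finset.disjoint_insert_right]; exact ⟨hi, hd⟩)]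
        rw [Finset.insert_union, Finset.union_insert, sg2_insert k hi, smul_smul, smul_smul]
        congr 1
        have hu : i ∉ A ∪ D := by simp [hi, hj]
        rw [cnt_insert hu, if_neg (lt_irrefl i), add_zero, cnt_union hd]
        unfold sg
        have h3 : ((-1 : k) ^ cnt i A) * ((-1) ^ cnt i A) = 1 := by
          rw [← mul_pow]; simp
        rw [pow_add, one_mul, mul_one]
        calc (-1 : k) ^ cnt i A * ((-1) ^ cnt i A * (-1) ^ cnt i D * sg2 k A (insert i (A ∪ D)))
            = (((-1 : k) ^ cnt i A) * ((-1) ^ cnt i A)) * ((-1) ^ cnt i D *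
                sg2 k A (insert i (A ∪ D))) := by ring
          _ = _ := by rw [h3, one_mul]
      · rw [if_neg (by rw [Finset.disjoint_insert_left]; tauto),
          if_neg (by rw [Finset.disjoint_insert_right]; tauto)]
        simp

theorem BM_th (x y : Finset ℕ →₀ k) (c : ℕ →₀ k) :
    BM k (thM k x c) y = BM k x (thM k y c) := by
  induction c using Finsupp.induction_linear with
  | zero => simp
  | add b c hb hc => simp only [map_add, LinearMap.add_apply, hb, hc]
  | single i s =>
    induction x using Finsupp.induction_linear with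
    | zero => simp
    | add x z hx hz => simp only [map_add, LinearMap.add_apply, hx, hz]
    | single A r =>
      induction y using Finsupp.induction_linear with
      | zero => simp
      | add y z hy hz => simp only [map_add, LinearMap.add_apply, hy, hz]
      | single D t =>
        have h1 : ∀ (j : Finset ℕ) (t : k),
            (Finsupp.single j t : Finset ℕ →₀ k) = t • Finsupp.single j 1 := by
          intro j t; simp
        rw [thM_single, thM_single, h1 D t, h1 A r]
        simp only [map_smul, LinearMap.smul_apply, BB_th]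
        module

/-- The concrete input. -/
def datum : Datum k (ℕ →₀ k) (Finset ℕ →₀ k) where
  th := thM k
  B := BM k
  th_sq := th_sq' k
  B_th := fun x y c => BM_th k x y c

end Concrete


noncomputable section Props

variable (F : Type u) [Field F]

theorem code_inj {A D : Finset ℕ} (h : code A = code D) : A = D := by
  exact Finset.geomSum_injective (n := 2) le_rfl h

theorem lt_code {A : Finset ℕ} {x : ℕ} (h : x ∈ A) (j : ℕ) : x < Nat.pair (code A) j := by
  have h1 : x < 2 ^ x := Nat.lt_two_pow_self
  have h2 : 2 ^ x ≤ code A := Finset.single_le_sum (f := fun i => 2 ^ i) (fun i _ => Nat.zero_le _) h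
  have h3 := Nat.left_le_pair (code A) j
  omega

theorem Om_insert {A : Finset ℕ} {m : ℕ} (h : ∀ x ∈ A, x < m) :
    Om F (insert m A) = if code A = (Nat.unpair m).1 then Finsupp.single (Nat.unpair m).2 1
      else 0 := by
  have h1 : (insert m A).sup id = m := by
    apply le_antisymm
    · apply Finset.sup_le
      intro x hx
      rcases Finset.mem_insert.1 hx with rfl | hx
      · exact le_refl _
      · exact (h x hx).le
    · exact Finset.le_sup (f := id) (Finset.mem_insert_self m A)
  have h2 : m ∉ A := fun hm => lt_irrefl _ (h m hm)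
  unfold Om
  rw [h1, Finset.erase_insert h2]

theorem Om_code (A D : Finset ℕ) (j : ℕ) (h : ∀ x ∈ D, x < Nat.pair (code A) j) :
    Om F (insert (Nat.pair (code A) j) D) = if D = A then Finsupp.single j 1 else 0 := by
  rw [Om_insert F h, Nat.unpair_pair]
  dsimp only
  by_cases hd : D = A
  · rw [if_pos hd, if_pos (by rw [hd])]
  · rw [if_neg hd, if_neg (fun hc => hd (code_inj hc))]

theorem sg2_ne (A U : Finset ℕ) : sg2 F A U ≠ 0 := by
  unfold sg2
  exact pow_ne_zero _ (by simp)

theorem sg_ne (i : ℕ) (A : Finset ℕ) : sg F i A ≠ 0 := by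
  unfold sg
  exact pow_ne_zero _ (by simp)

theorem thM_apply (A : Finset ℕ) (c : ℕ →₀ F) :
    thM F (Finsupp.single A 1) c = c.sum (fun i s => s • thB F A i) := by
  simp [thM, Finsupp.linearCombination_apply]

theorem BM_apply_left (x : Finset ℕ →₀ F) (D : Finset ℕ) :
    BM F x (Finsupp.single D 1) = x.sum (fun A s => s • BB F A D) := by
  simp [BM, Finsupp.linearCombination_apply, Finsupp.sum, LinearMap.sum_apply]

theorem BM_apply_right (y : Finset ℕ →₀ F) (D : Finset ℕ) :
    BM F (Finsupp.single D 1) y = y.sum (fun A s => s • BB F D A) := by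
  simp [BM, Finsupp.linearCombination_apply]

theorem thM_empty (x : Finset ℕ →₀ F) (c : ℕ →₀ F) : thM F x c ∅ = 0 := by
  induction x using Finsupp.induction_linear with
  | zero => simp
  | add x z hx hz => simp only [map_add, LinearMap.add_apply, Finsupp.add_apply, hx, hz, add_zero]
  | single A r =>
    induction c using Finsupp.induction_linear with
    | zero => simp
    | add b c hb hc => simp only [map_add, Finsupp.add_apply, hb, hc, add_zero]
    | single i s =>
      rw [thM_single]
      unfold thB
      split_ifs with h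
      · simp
      · rw [Finsupp.smul_single, Finsupp.single_apply, if_neg (Finset.insert_ne_empty i A)]

/-- Property (iii). -/
theorem exists_gen {c : ℕ →₀ F} (hc : c ≠ 0) (j : ℕ) (s : F) :
    ∃ y, BM F (thM F (Finsupp.single ∅ 1) c) y = Finsupp.single j s := by
  have hne : c.support.Nonempty := Finsupp.support_nonempty_iff.2 hc
  set i0 := c.support.max' hne with hi0
  have hi0m : i0 ∈ c.support := Finset.max'_mem _ _
  have hle : ∀ i ∈ c.support, i ≤ i0 := fun i hi => Finset.le_max' _ _ hi
  have hc0 : c i0 ≠ 0 := Finsupp.mem_support_iff.1 hi0m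
  set m := Nat.pair (code {i0}) j with hm
  have hlt : i0 < m := lt_code (Finset.mem_singleton_self i0) j
  have key : BM F (thM F (Finsupp.single ∅ 1) c) (Finsupp.single {m} 1) =
      Finsupp.single j (c i0) := by
    rw [thM_apply, Finsupp.sum, map_sum, LinearMap.sum_apply, Finset.sum_eq_single i0]
    · rw [map_smul, LinearMap.smul_apply, thB, if_neg (Finset.notMem_empty _), BM_single, BB,
        if_pos (by simp; omega)]
      have h1 : ({i0} ∪ {m} : Finset ℕ) = insert m {i0} := by
        ext x; simp; tauto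
      rw [show insert i0 (∅ : Finset ℕ) = {i0} from rfl, h1, Om_code F {i0} {i0} j
        (by intro x hx; rw [Finset.mem_singleton.1 hx]; exact hlt), if_pos rfl]
      have h2 : sg F i0 ∅ = 1 := by simp [sg, cnt]
      have h3 : sg2 F {i0} (insert m {i0}) = 1 := by
        unfold sg2 cnt
        rw [Finset.sum_singleton, Finset.card_eq_zero.2, pow_zero]
        rw [Finset.filter_eq_empty_iff]
        intro x hx
        rcases Finset.mem_insert.1 hx with rfl | hx
        · omega
        · rw [Finset.mem_singleton.1 hx]; omega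
      rw [h2, h3]
      simp
    · intro i hi hii
      have hi' : i < m := lt_of_le_of_lt (hle i hi) hlt
      rw [map_smul, LinearMap.smul_apply, thB, if_neg (Finset.notMem_empty _), BM_single, BB,
        if_pos (by simp; omega)]
      have h1 : ({i} ∪ {m} : Finset ℕ) = insert m {i} := by
        ext x; simp; tauto
      rw [show insert i (∅ : Finset ℕ) = {i} from rfl, h1, Om_code F {i0} {i} j
        (by intro x hx; rw [Finset.mem_singleton.1 hx]; exact hi'), if_neg (by simpa using hii)]
      simp
    · intro h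
      exact absurd hi0m h
  refine ⟨Finsupp.single {m} ((c i0)⁻¹ * s), ?_⟩
  have h1 : (Finsupp.single {m} ((c i0)⁻¹ * s) : Finset ℕ →₀ F) =
      ((c i0)⁻¹ * s) • Finsupp.single {m} 1 := by simp
  rw [h1, map_smul, key, Finsupp.smul_single, smul_eq_mul]
  congr 1
  field_simp

/-- Separating sets for nondegeneracy. -/
theorem exists_sep {x : Finset ℕ →₀ F} (hx : x ≠ 0) :
    ∃ D : Finset ℕ, ∃ A0 ∈ x.support, ∀ A ∈ x.support, Disjoint A D ∧
      Om F (A ∪ D) = if A = A0 then Finsupp.single 0 1 else 0 := by
  obtain ⟨A0, hA0⟩ := Finsupp.support_nonempty_iff.2 hx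
  set M := (x.support.sup fun A => A.sup id) + 1 with hM
  have hlt : ∀ A ∈ x.support, ∀ z ∈ A, z < M := by
    intro A hA z hz
    have h1 : z ≤ A.sup id := Finset.le_sup (f := id) hz
    have h2 : A.sup id ≤ x.support.sup fun A => A.sup id :=
      Finset.le_sup (f := fun A : Finset ℕ => A.sup id) hA
    omega
  have hnot : ∀ A ∈ x.support, M ∉ A := fun A hA h => lt_irrefl _ (hlt A hA M h)
  set m := Nat.pair (code (insert M A0)) 0 with hm
  have hMm : M < m := lt_code (Finset.mem_insert_self M A0) 0
  refine ⟨{M, m}, A0, hA0, fun A hA => ⟨?_, ?_⟩⟩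
  · rw [Finset.disjoint_left]
    intro z hz hz2
    have := hlt A hA z hz
    simp only [Finset.mem_insert, Finset.mem_singleton] at hz2
    omega
  · have h1 : A ∪ {M, m} = insert m (insert M A) := by
      ext z; simp; tauto
    rw [h1, Om_code F (insert M A0) (insert M A) 0]
    · by_cases h : A = A0
      · rw [if_pos h, if_pos (by rw [h])]
      · rw [if_neg h, if_neg]
        intro hc
        apply h
        have h2 := congrArg (fun S => S.erase M) hc
        simpa [Finset.erase_insert (hnot A hA), Finset.erase_insert (hnot A0 hA0)] using h2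
    · intro z hz
      rcases Finset.mem_insert.1 hz with rfl | hz
      · exact hMm
      · exact (hlt A hA z hz).trans hMm

theorem nondeg_left {x : Finset ℕ →₀ F} (hx : x ≠ 0) : ∃ y, BM F x y ≠ 0 := by
  obtain ⟨D, A0, hA0, h⟩ := exists_sep F hx
  refine ⟨Finsupp.single D 1, fun hc => ?_⟩
  rw [BM_apply_left, Finsupp.sum, Finset.sum_eq_single A0] at hc
  · obtain ⟨h1, h2⟩ := h A0 hA0
    rw [BB, if_pos h1, h2, if_pos rfl] at hc
    have h3 := congrArg (fun f => f 0) hc
    simp [sg2_ne, Finsupp.mem_support_iff.1 hA0] at h3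
  · intro A hA hne
    obtain ⟨h1, h2⟩ := h A hA
    rw [BB, if_pos h1, h2, if_neg hne]
    simp
  · intro h; exact absurd hA0 h

theorem nondeg_right {y : Finset ℕ →₀ F} (hy : y ≠ 0) : ∃ x, BM F x y ≠ 0 := by
  obtain ⟨D, A0, hA0, h⟩ := exists_sep F hy
  refine ⟨Finsupp.single D 1, fun hc => ?_⟩
  rw [BM_apply_right, Finsupp.sum, Finset.sum_eq_single A0] at hc
  · obtain ⟨h1, h2⟩ := h A0 hA0
    rw [BB, if_pos h1.symm, Finset.union_comm, h2, if_pos rfl] at hc
    have h3 := congrArg (fun f => f 0) hc
    simp [sg2_ne, Finsupp.mem_support_iff.1 hA0] at h3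
  · intro A hA hne
    obtain ⟨h1, h2⟩ := h A hA
    rw [BB, if_pos h1.symm, Finset.union_comm, h2, if_neg hne]
    simp
  · intro h; exact absurd hA0 h

/-- Long products: for every `n`, `j`, `s` there are `A`, `D` with at least `n` elements and
`B(e_A, r e_D) = s e_j`. -/
theorem exists_long (n j : ℕ) (s : F) : ∃ A D : Finset ℕ, ∃ r : F, n ≤ A.card ∧ n ≤ D.card ∧
    BM F (Finsupp.single A 1) (Finsupp.single D r) = Finsupp.single j s := by
  set A := Finset.range n
  set D0 := Finset.Ico n (2 * n)
  set m := Nat.pair (code (A ∪ D0)) j with hm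
  have hlt : ∀ x ∈ A ∪ D0, x < m := fun x hx => lt_code hx j
  have hmA : m ∉ A := fun h => lt_irrefl _ (hlt m (Finset.mem_union_left _ h))
  have hmD : m ∉ D0 := fun h => lt_irrefl _ (hlt m (Finset.mem_union_right _ h))
  have hdis : Disjoint A D0 := by
    rw [Finset.disjoint_left]
    intro z hz hz2
    have h1 := Finset.mem_range.1 hz
    have h2 := (Finset.mem_Ico.1 hz2).1
    omega
  refine ⟨A, insert m D0, (sg2 F A (insert m (A ∪ D0)))⁻¹ * s, ?_, ?_, ?_⟩
  · simp [A]
  · rw [Finset.card_insert_of_notMem hmD, Nat.card_Ico]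
    omega
  · rw [BM_single, BB, if_pos (by rw [Finset.disjoint_insert_right]; exact ⟨hmA, hdis⟩),
      Finset.union_insert, Om_code F (A ∪ D0) (A ∪ D0) j hlt, if_pos rfl, smul_smul, one_mul,
      Finsupp.smul_single, smul_eq_mul, mul_one]
    have := sg2_ne F A (insert m (A ∪ D0))
    congr 1
    field_simp

end Props



noncomputable section Main

variable (F : Type u) [Field F]

/-- The ring of the theorem. -/
abbrev Ring7 : Type u := Alg (datum F)

variable {F}

theorem datum_th : (datum F).th = thM F := rfl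
theorem datum_B : (datum F).B = BM F := rfl

/-- The minimal ideal: all elements without `d`-component and without components on
`w₁, l w₁, w₂, l w₂`. -/
def minI : AddSubgroup (Ring7 F) where
  carrier := {r | r.t = 0 ∧ r.p ∅ = 0 ∧ r.p' ∅ = 0 ∧ r.q ∅ = 0 ∧ r.q' ∅ = 0}
  zero_mem' := by simp
  add_mem' := by
    rintro x y ⟨h1, h2, h3, h4, h5⟩ ⟨g1, g2, g3, g4, g5⟩
    simp [h1, h2, h3, h4, h5, g1, g2, g3, g4, g5]
  neg_mem' := by
    rintro x ⟨h1, h2, h3, h4, h5⟩
    simp [h1, h2, h3, h4, h5]

theorem mem_minI (r : Ring7 F) : r ∈ (minI : AddSubgroup (Ring7 F)) ↔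
    r.t = 0 ∧ r.p ∅ = 0 ∧ r.p' ∅ = 0 ∧ r.q ∅ = 0 ∧ r.q' ∅ = 0 := Iff.rfl

theorem minI_isIdeal : IsIdeal (minI : AddSubgroup (Ring7 F)) := by
  rintro x ⟨h1, h2, h3, h4, h5⟩ r
  refine ⟨?_, ?_⟩
  · rw [mem_minI]
    simp [datum_th, thM_empty, h2, h4]
  · rw [mem_minI]
    simp [datum_th, thM_empty, h1]

def ea (c : ℕ →₀ F) : Ring7 F := ⟨c, 0, 0, 0, 0, 0, 0⟩
def eb (c : ℕ →₀ F) : Ring7 F := ⟨0, c, 0, 0, 0, 0, 0⟩
def ep (x : Finset ℕ →₀ F) : Ring7 F := ⟨0, 0, x, 0, 0, 0, 0⟩
def ep' (x : Finset ℕ →₀ F) : Ring7 F := ⟨0, 0, 0, x, 0, 0, 0⟩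
def eq (x : Finset ℕ →₀ F) : Ring7 F := ⟨0, 0, 0, 0, x, 0, 0⟩
def eq' (x : Finset ℕ →₀ F) : Ring7 F := ⟨0, 0, 0, 0, 0, x, 0⟩
def ed : Ring7 F := ⟨0, 0, 0, 0, 0, 0, 1⟩

theorem ep_mul_eb (x : Finset ℕ →₀ F) (c : ℕ →₀ F) : ep x * eb c = ep (thM F x c) := by
  ext1 <;> simp [ep, eb, datum_th]
theorem ep'_mul_eb (x : Finset ℕ →₀ F) (c : ℕ →₀ F) : ep' x * eb c = ep' (thM F x c) := by
  ext1 <;> simp [ep', eb, datum_th]
theorem eq_mul_eb (x : Finset ℕ →₀ F) (c : ℕ →₀ F) : eq x * eb c = eq (thM F x c) := by
  ext1 <;> simp [eq, eb, datum_th]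
theorem eq'_mul_eb (x : Finset ℕ →₀ F) (c : ℕ →₀ F) : eq' x * eb c = eq' (thM F x c) := by
  ext1 <;> simp [eq', eb, datum_th]
theorem ep_mul_eq (x y : Finset ℕ →₀ F) : ep x * eq y = ea (BM F x y) := by
  ext1 <;> simp [ep, eq, ea, datum_B]
theorem ep_mul_eq' (x y : Finset ℕ →₀ F) : ep x * eq' y = eb (BM F x y) := by
  ext1 <;> simp [ep, eq', eb, datum_B]

/-- A purely `b`-type nonzero element generates everything. -/
theorem all_of_eb {K : AddSubgroup (Ring7 F)} (hK : IsIdeal K) {c : ℕ →₀ F} (hc : c ≠ 0)
    (h : eb c ∈ K) : minI ≤ K := by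
  have hp : ep (thM F (Finsupp.single ∅ 1) c) ∈ K := by
    rw [← ep_mul_eb]; exact (hK _ h _).1
  -- all `eb`
  have hb1 : ∀ j s, eb (Finsupp.single j s) ∈ K := by
    intro j s
    obtain ⟨y, hy⟩ := exists_gen F hc j s
    rw [← hy, ← ep_mul_eq']
    exact (hK _ hp _).2
  have hb : ∀ c', eb c' ∈ K := by
    intro c'
    induction c' using Finsupp.induction_linear with
    | zero => exact K.zero_mem
    | add x y hx hy =>
      have : eb (x + y) = eb x + eb y := by ext1 <;> simp [eb]
      rw [this]; exact K.add_mem hx hy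
    | single j s => exact hb1 j s
  have ha1 : ∀ j s, ea (Finsupp.single j s) ∈ K := by
    intro j s
    obtain ⟨y, hy⟩ := exists_gen F hc j s
    rw [← hy, ← ep_mul_eq]
    exact (hK _ hp _).2
  have ha : ∀ c', ea c' ∈ K := by
    intro c'
    induction c' using Finsupp.induction_linear with
    | zero => exact K.zero_mem
    | add x y hx hy =>
      have : ea (x + y) = ea x + ea y := by ext1 <;> simp [ea]
      rw [this]; exact K.add_mem hx hy
    | single j s => exact ha1 j s
  -- the `N`-parts
  have hN : ∀ f : (Finset ℕ →₀ F) → Ring7 F, (∀ x y, f (x + y) = f x + f y) →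
      (∀ x c, f (thM F x c) ∈ K) → ∀ x : Finset ℕ →₀ F, x ∅ = 0 → f x ∈ K := by
    intro f hf hfK x hx
    have hs : ∀ A s, A ≠ ∅ → f (Finsupp.single A s) ∈ K := by
      intro A s hA
      obtain ⟨i, hi⟩ := Finset.nonempty_iff_ne_empty.2 hA
      have h1 : thM F (Finsupp.single (A.erase i) ((sg F i (A.erase i))⁻¹ * s))
          (Finsupp.single i 1) = Finsupp.single A s := by
        rw [thM_single, thB, if_neg (Finset.notMem_erase i A), Finset.insert_erase hi,
          Finsupp.smul_single, smul_eq_mul, mul_one]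
        have := sg_ne F i (A.erase i)
        congr 1
        field_simp
      rw [← h1]
      exact hfK _ _
    have hf0 : f 0 = 0 := by
      have := hf 0 0
      rw [add_zero] at this
      exact left_eq_add.1 this
    have hsum : f x = ∑ A ∈ x.support, f (Finsupp.single A (x A)) := by
      conv_lhs => rw [← Finsupp.sum_single x, Finsupp.sum]
      exact map_sum (AddMonoidHom.mk' f hf) _ _
    rw [hsum]
    refine K.sum_mem fun A hA => ?_
    rcases eq_or_ne A ∅ with rfl | hne
    · exact absurd hx (Finsupp.mem_support_iff.1 hA)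
    · exact hs A _ hne
  have hP := hN ep (fun x y => by ext1 <;> simp [ep])
    (fun x c => by rw [← ep_mul_eb]; exact (hK _ (hb c) _).1)
  have hP' := hN ep' (fun x y => by ext1 <;> simp [ep'])
    (fun x c => by rw [← ep'_mul_eb]; exact (hK _ (hb c) _).1)
  have hQ := hN eq (fun x y => by ext1 <;> simp [eq])
    (fun x c => by rw [← eq_mul_eb]; exact (hK _ (hb c) _).1)
  have hQ' := hN eq' (fun x y => by ext1 <;> simp [eq'])
    (fun x c => by rw [← eq'_mul_eb]; exact (hK _ (hb c) _).1)
  rintro r ⟨h1, h2, h3, h4, h5⟩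
  have hr : r = ea r.a + eb r.b + ep r.p + ep' r.p' + eq r.q + eq' r.q' := by
    ext1 <;> simp [ea, eb, ep, ep', eq, eq', h1]
  rw [hr]
  exact K.add_mem (K.add_mem (K.add_mem (K.add_mem (K.add_mem (ha _) (hb _)) (hP _ h2))
    (hP' _ h3)) (hQ _ h4)) (hQ' _ h5)

/-- Every nonzero element of the ideal generates it. -/
theorem all_of_mem {K : AddSubgroup (Ring7 F)} (hK : IsIdeal K) (hKI : K ≤ minI) {r : Ring7 F}
    (hr : r ∈ K) (hne : r ≠ 0) : minI ≤ K := by
  have ht : r.t = 0 := (hKI hr).1
  by_cases hp : r.p = 0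
  · by_cases hp' : r.p' = 0
    · by_cases hq : r.q = 0
      · by_cases hq' : r.q' = 0
        · by_cases ha : r.a = 0
          · have hb : r.b ≠ 0 := by
              intro hb
              apply hne
              ext1 <;> simp [*]
            apply all_of_eb hK hb
            have : eb r.b = r := by ext1 <;> simp [eb, *]
            rw [this]; exact hr
          · apply all_of_eb hK ha
            have : eb r.a = r * ed := by ext1 <;> simp [eb, ed, *]
            rw [this]; exact (hK _ hr _).2
        · obtain ⟨x, hx⟩ := nondeg_right F hq'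
          apply all_of_eb hK (c := - BM F x r.q') (by simpa using hx)
          have : eb (- BM F x r.q') = r * ep x := by
            ext1 <;> simp [eb, ep, datum_B, datum_th, *]
          rw [this]; exact (hK _ hr _).2
      · obtain ⟨x, hx⟩ := nondeg_right F hq
        apply all_of_eb hK (c := - BM F x r.q) (by simpa using hx)
        have : eb (- BM F x r.q) = r * ep' x := by
          ext1 <;> simp [eb, ep', datum_B, datum_th, *]
        rw [this]; exact (hK _ hr _).2
    · obtain ⟨y, hy⟩ := nondeg_left F hp'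
      apply all_of_eb hK hy
      have : eb (BM F r.p' y) = r * eq y := by
        ext1 <;> simp [eb, eq, datum_B, datum_th, *]
      rw [this]; exact (hK _ hr _).2
  · obtain ⟨y, hy⟩ := nondeg_left F hp
    apply all_of_eb hK hy
    have : eb (BM F r.p y) = r * eq' y := by
      ext1 <;> simp [eb, eq', datum_B, datum_th, *]
    rw [this]; exact (hK _ hr _).2

theorem eb_ne {c : ℕ →₀ F} (hc : c ≠ 0) : eb c ≠ 0 := fun h => hc (congrArg Alg.b h)
theorem ea_ne {c : ℕ →₀ F} (hc : c ≠ 0) : ea c ≠ 0 := fun h => hc (congrArg Alg.a h)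

theorem e0_ne : (Finsupp.single 0 1 : ℕ →₀ F) ≠ 0 := by simp

theorem minI_minimal : IsMinimalIdeal (minI : AddSubgroup (Ring7 F)) := by
  refine ⟨?_, minI_isIdeal, ?_⟩
  · intro h
    have h1 : eb (Finsupp.single 0 1) ∈ (minI : AddSubgroup (Ring7 F)) := by
      rw [mem_minI]; simp [eb]
    rw [h, AddSubgroup.mem_bot] at h1
    exact eb_ne e0_ne h1
  · intro K hK hKI
    by_cases h : K = ⊥
    · exact Or.inl h
    · right
      obtain ⟨⟨r, hr⟩, hne⟩ := AddSubgroup.ne_bot_iff_exists_ne_zero.1 h
      exact le_antisymm hKI (all_of_mem hK hKI hr fun h0 => hne (Subtype.ext h0))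

/-- The proper ideal `J` of the ring `minI`: it annihilates `minI` from both sides. -/
def properJ : AddSubgroup (Ring7 F) where
  carrier := {r | ∃ c, r = ea c}
  zero_mem' := ⟨0, rfl⟩
  add_mem' := by
    rintro _ _ ⟨c, rfl⟩ ⟨d, rfl⟩
    exact ⟨c + d, by ext1 <;> simp [ea]⟩
  neg_mem' := by
    rintro _ ⟨c, rfl⟩
    exact ⟨-c, by ext1 <;> simp [ea]⟩

theorem minI_not_simple : ¬ IsSimpleAsRing (minI : AddSubgroup (Ring7 F)) := by
  rintro ⟨_, h⟩
  have h1 : IsIdealOf (properJ : AddSubgroup (Ring7 F)) minI := by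
    refine ⟨?_, ?_⟩
    · rintro _ ⟨c, rfl⟩
      rw [mem_minI]; simp [ea]
    · rintro _ ⟨c, rfl⟩ y hy
      have ht : y.t = 0 := hy.1
      refine ⟨⟨0, ?_⟩, ⟨0, ?_⟩⟩
      · ext1 <;> simp [ea, ht]
      · ext1 <;> simp [ea, ht]
  rcases h _ h1 with h2 | h2
  · have h3 : ea (Finsupp.single 0 1) ∈ (properJ : AddSubgroup (Ring7 F)) := ⟨_, rfl⟩
    rw [h2, AddSubgroup.mem_bot] at h3
    exact ea_ne e0_ne h3
  · have h3 : eb (Finsupp.single 0 1) ∈ (minI : AddSubgroup (Ring7 F)) := by
      rw [mem_minI]; simp [eb]
    rw [← h2] at h3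
    obtain ⟨c, hc⟩ := h3
    exact e0_ne (congrArg Alg.b hc)

theorem derived_big (k : ℕ) :
    (∀ (A : Finset ℕ) (s : F), k + 1 ≤ A.card →
      ep (Finsupp.single A s) ∈ derived (minI : AddSubgroup (Ring7 F)) k ∧
      eq' (Finsupp.single A s) ∈ derived (minI : AddSubgroup (Ring7 F)) k) ∧
    ∀ (j : ℕ) (s : F), eb (Finsupp.single j s) ∈ derived (minI : AddSubgroup (Ring7 F)) k := by
  induction k with
  | zero =>
    refine ⟨fun A s hA => ?_, fun j s => ?_⟩
    · have hA' : A ≠ ∅ := by
        rintro rfl; simp at hA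
      refine ⟨?_, ?_⟩
      · change _ ∈ (minI : AddSubgroup (Ring7 F))
        rw [mem_minI]; simp [ep, hA']
      · change _ ∈ (minI : AddSubgroup (Ring7 F))
        rw [mem_minI]; simp [eq', hA']
    · change _ ∈ (minI : AddSubgroup (Ring7 F))
      rw [mem_minI]; simp [eb]
  | succ k ih =>
    obtain ⟨ih1, ih2⟩ := ih
    refine ⟨fun A s hA => ?_, fun j s => ?_⟩
    · have hA' : A.Nonempty := Finset.card_pos.1 (by omega)
      obtain ⟨i, hi⟩ := hA'
      have h1 : thM F (Finsupp.single (A.erase i) ((sg F i (A.erase i))⁻¹ * s))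
          (Finsupp.single i 1) = Finsupp.single A s := by
        rw [thM_single, thB, if_neg (Finset.notMem_erase i A), Finset.insert_erase hi,
          Finsupp.smul_single, smul_eq_mul, mul_one]
        have := sg_ne F i (A.erase i)
        congr 1
        field_simp
      have hc : k + 1 ≤ (A.erase i).card := by
        rw [Finset.card_erase_of_mem hi]; omega
      refine ⟨?_, ?_⟩
      · rw [← h1, ← ep_mul_eb]
        exact mul_mem_prod (ih1 _ _ hc).1 (ih2 _ _)
      · rw [← h1, ← eq'_mul_eb]
        exact mul_mem_prod (ih1 _ _ hc).2 (ih2 _ _)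
    · obtain ⟨A, D, r, hA, hD, h⟩ := exists_long F (k + 1) j s
      rw [← h, ← ep_mul_eq']
      exact mul_mem_prod (ih1 _ _ hA).1 (ih1 _ _ hD).2

theorem minI_not_solvable : ¬ IsSolvableIdeal (minI : AddSubgroup (Ring7 F)) := by
  rintro ⟨k, hk⟩
  have h := (derived_big (F := F) k).2 0 1
  rw [hk, AddSubgroup.mem_bot] at h
  exact eb_ne e0_ne h

theorem minI_not_rightNilpotent : ¬ IsRightNilpotent (minI : AddSubgroup (Ring7 F)) := by
  rintro ⟨k, hk⟩
  have h := derived_le_rightPower minI_isIdeal k ((derived_big (F := F) k).2 0 1)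
  rw [hk, AddSubgroup.mem_bot] at h
  exact eb_ne e0_ne h

end Main

/-- For every field `F` there is an algebra `R` over `F` (the multiplication is `F`-bilinear)
satisfying the right alternative identity `(x y) y = x (y y)` and the right Moufang identity
`((x y) z) y = x ((y z) y)` that has a minimal ideal which is neither simple as a ring, nor
solvable, nor right nilpotent. -/
theorem result (F : Type u) [Field F] :
    ∃ (R : Type u) (_ : NonUnitalNonAssocRing R) (_ : Module F R),
      (∀ (a : F) (x y : R), (a • x) * y = a • (x * y) ∧ x * (a • y) = a • (x * y)) ∧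
      RightAlternative R ∧ RightMoufang R ∧
      ∃ I : AddSubgroup R, IsMinimalIdeal I ∧
        ¬ IsSimpleAsRing I ∧ ¬ IsSolvableIdeal I ∧ ¬ IsRightNilpotent I :=
  ⟨Ring7 F, inferInstance, inferInstance, fun a x y => ⟨smul_mul_assoc a x y, mul_smul_comm a x y⟩,
    Alg.rightAlternative, Alg.rightMoufang, minI, minI_minimal, minI_not_simple,
    minI_not_solvable, minI_not_rightNilpotent⟩

end Pool.Agent.Results.MP_c4a975_al.EveryCharacteristic
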